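import Pool.Agent.TH522.SE.Local
import Pool.Agent.TH843.LR.Form

/-!
# Local reductions from gap 3-SAT to small-set expansion must be large

The definitions used in the statement are `Represents` in `Pool/Agent/TH522/SE/Local.lean`, `Reads`,
`SatOn` in `Pool/Agent/TH700/UG/Defs.lean`, `Clause`, `Satisfies`, `falsified` in
`Pool/Agent/W888/GX/Mix.lean`, and `size`, `boundary` in
`Pool/Agent/Results/MP_8d8c46_lc/MixedHierarchy.lean`.

All known reductions from gap 3-SAT to problems of this kind are local: every assignment has an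
honest set, the membership of a vertex in it depends on few of the variables (those of a few
clauses, in some encoding), and that the honest set of a satisfying assignment has the right size
and small expansion is seen gadget by gadget, from the clauses inside of each gadget. `Represents`
says this.

The theorem: for some formulas `F` in `n` variables with `O(n)` clauses, at most a fraction
`7 / 8 + δ` of which can be satisfied, every regular graph on `N` vertices which represents `F` for
sets of size `m`, with locality `d` and completeness `ε`, and in which all sets of `m` vertices have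
expansion more than `1 - e ^ (-l) / 128`, has `N > (c (m / N) n / d) ^ (l / (512 ε))`. For
`SSE(η, δ)`, that is `ε = η`, `m = δ N` and `e ^ (-l) / 128` just above `η`, the exponent is at least
`log (1 / η) / (1024 η)` for small `η`: a local reduction which proves that `SSE(η, δ)` is hard has
size at least `n ^ (c log (1 / η) / η)`, and in a reduction of polynomial size the membership of
some vertex must depend on `n ^ (1 - O(η / log (1 / η)))` variables. This is unconditional.

Proof: for random formulas there is a pseudo-expectation of linear degree which satisfies all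
clauses. Composed with the honest sets it is a solution of level `n / d`, up to a constant, of the
mixed hierarchy for sets of size `m` with expansion at most `ε`. The rounding theorem
(`MixedHierarchy`) gives a set of `m` vertices of expansion at most `1 - e ^ (-l) / 128`.
-/

namespace Pool.Agent.Results.MP_8d8c46_lc.LocalReductions

open Finset Pool.Agent.W888.GX Pool.Agent.TH522.SE
open Pool.Agent.Results.MP_8d8c46_lc.MixedHierarchy (size boundary)

/-- For every `δ > 0` there are `M` and `c > 0` such that for all large `n` there is a formula `F`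
with at least `n` and at most `M n` clauses, with three literals each, over `n` variables, every
assignment of which
falsifies at least a fraction `1 / 8 - δ` of the clauses, and with the following property. Let
`0 < ε ≤ 1 / 512`, `l > 0` and `d ≥ 1`. If a `deg`-regular graph on the vertices `V` represents `F`
for sets of size `m`, with locality `d` and completeness `ε`, and if all sets of `m` vertices have
expansion more than `1 - e ^ (-l) / 128`, then `|V| > (c (m / |V|) n / d) ^ (l / (512 ε))`. -/
theorem result : ∀ δ : ℝ, 0 < δ →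
    ∃ M : ℕ, 1 ≤ M ∧ ∃ c : ℝ, 0 < c ∧ ∃ n₀ : ℕ, ∀ n : ℕ, n₀ ≤ n →
      ∃ (I : Type) (_ : Fintype I) (F : I → Clause 3 n),
        n ≤ Fintype.card I ∧ Fintype.card I ≤ M * n ∧
        (∀ z, (1 / 8 - δ) * (Fintype.card I : ℝ) ≤ (falsified F z : ℝ)) ∧
        ∀ (ε l : ℝ) (d m deg : ℕ) (V : Type) [Fintype V] (G : SimpleGraph V)
          [DecidableRel G.Adj], 0 < ε → ε ≤ 1 / 512 → 0 < l → 1 ≤ d → 1 ≤ m →
          m ≤ Fintype.card V → 1 ≤ deg → G.IsRegularOfDegree deg →
          Represents F d ε m deg G →
          (∀ x : V → Bool, size x = m →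
            (1 - Real.exp (-l) / 128) * (deg * m) < (boundary G x : ℝ)) →
          (c * (m / Fintype.card V) * n / d) ^ (l / (512 * ε)) < Fintype.card V := by
  intro δ hδ
  obtain ⟨M, hM, c0, hc0, n0, hn0⟩ := Pool.Agent.TH843.LR.exists_formula_card δ hδ
  refine ⟨M, hM, c0 / 2 ^ 16, by positivity, n0, fun n hn => ?_⟩
  obtain ⟨I, hI, F, D, L, hcard0, hcard, hfar, hD, hL, hF⟩ := hn0 n hn
  refine ⟨I, hI, F, hcard0, hcard, hfar, ?_⟩
  intro ε l d m deg V _ G _ hε hε1 hl hd hm hmV hdeg hreg hR hno
  by_contra hcon
  push Not at hcon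
  obtain ⟨enc, P, hP, T, g, Q, hQ, T', h, henc, hg, hh, hb, hsz⟩ := hR
  have hd0 : (0 : ℝ) < d := by exact_mod_cast hd
  have hm0 : (0 : ℝ) < m := by exact_mod_cast hm
  have hm1 : (1 : ℝ) ≤ m := by exact_mod_cast hm
  have hmV' : (m : ℝ) ≤ Fintype.card V := by exact_mod_cast hmV
  have hN0 : (0 : ℝ) < Fintype.card V := by linarith
  have hN1 : (1 : ℝ) ≤ Fintype.card V := by linarith
  -- the exponent
  obtain ⟨θ, hθ⟩ : ∃ θ : ℝ, θ = 512 * ε / l := ⟨_, rfl⟩
  have hθ0 : 0 < θ := by rw [hθ]; positivity
  have hθi : l / (512 * ε) = θ⁻¹ := by rw [hθ, inv_div]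
  rw [hθi] at hcon
  have hbase : 0 ≤ c0 / 2 ^ 16 * (m / Fintype.card V) * n / d := by positivity
  have h1 : (Fintype.card V : ℝ) ^ θ ≤ c0 / 2 ^ 16 * (m / Fintype.card V) * n / d := by
    calc (Fintype.card V : ℝ) ^ θ ≤ ((c0 / 2 ^ 16 * (m / Fintype.card V) * n / d) ^ θ⁻¹) ^ θ :=
          Real.rpow_le_rpow hN0.le hcon hθ0.le
      _ = _ := Real.rpow_inv_rpow hbase hθ0.ne'
  have h2 : (m : ℝ) ^ θ ≤ (Fintype.card V : ℝ) ^ θ := Real.rpow_le_rpow hm0.le hmV' hθ0.le
  have h3 : (1 : ℝ) ≤ (m : ℝ) ^ θ := Real.one_le_rpow hm1 hθ0.le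
  have h4 : Fintype.card V / m * (m : ℝ) ^ θ ≤ c0 / 2 ^ 16 * n / d := by
    calc Fintype.card V / m * (m : ℝ) ^ θ
        ≤ Fintype.card V / m * (c0 / 2 ^ 16 * (m / Fintype.card V) * n / d) :=
          mul_le_mul_of_nonneg_left (h2.trans h1) (by positivity)
      _ = _ := by field_simp
  have h5 : (1 : ℝ) ≤ Fintype.card V / m * (m : ℝ) ^ θ := by
    have h6 : (1 : ℝ) ≤ Fintype.card V / m := by rw [le_div_iff₀ hm0]; linarith
    nlinarith
  -- the level
  obtain ⟨D', hD'⟩ : ∃ D' : ℕ, D' = ⌊c0 * n / d⌋₊ := ⟨_, rfl⟩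
  have hfl : (D' : ℝ) ≤ c0 * n / d := by
    rw [hD']
    exact Nat.floor_le (by positivity)
  have hfl2 : c0 * n / d - 1 < D' := by
    rw [hD']
    exact Nat.sub_one_lt_floor _
  have h7 : c0 / 2 ^ 16 * n / d = c0 * n / d / 2 ^ 16 := by ring
  rw [h7] at h4
  have h8 : (2 : ℝ) ^ 16 ≤ c0 * n / d := by
    have := h5.trans h4
    rwa [le_div_iff₀ (by norm_num), one_mul] at this
  obtain ⟨k, hk⟩ : ∃ k, D' = k + 2 := by
    refine ⟨D' - 2, ?_⟩
    have h9 : (2 : ℝ) < D' := by norm_num at h8; linarith
    have h10 : 2 < D' := by exact_mod_cast h9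
    omega
  have hkD : (k + 2) * d ≤ D := by
    have h9 : (((k + 2) * d : ℕ) : ℝ) ≤ D := by
      rw [← hk]
      push_cast
      rw [le_div_iff₀ hd0] at hfl
      exact hfl.trans hD
    exact_mod_cast h9
  have hlev : 2 ^ 14 * (Fintype.card V / m * (m : ℝ) ^ (512 * ε / l)) ≤ k := by
    rw [← hθ]
    have h9 : (k : ℝ) = D' - 2 := by
      rw [hk]
      push_cast
      ring
    rw [h9]
    norm_num at h4 h8 ⊢
    linarith
  have hdD : d ≤ D := by nlinarith
  have hmix := mixed_comp (m := m) hL F hF enc henc Q T' h hh hsz hkD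
  have hval := val_comp (m := m) (deg := deg) hL F hF G ε enc P T g hg hb hdD
  obtain ⟨x, hx1, hx2⟩ := Pool.Agent.Results.MP_8d8c46_lc.MixedHierarchy.result V G deg m k ε l _
    hdeg hreg hm hmV hε hε1 hl hlev hmix hval
  exact absurd hx2 (not_le.2 (hno x hx1))

end Pool.Agent.Results.MP_8d8c46_lc.LocalReductions
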