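import Pool.Agent.TH522.SE.Main

/-!
Small-set expansion and the mixed hierarchy (Sherali-Adams plus the basic semidefinite program):
`SSE(η, δ)` is decided at level `(C / δ) * (δ n) ^ (C η / log (1 / η))`.

Idea of the proof. In a no instance the sets `B` of small size with many inner edges make up only a
small part of a set of size `δ n`. The random walk watched only outside of `B` (elimination of the
points of `B`, one by one) has no more energy, and all small sets have few steps of this walk
inside of them; so it spreads out in `log (δ n) / l` steps, and the covariances of a solution of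
small energy are globally correlated. Conditioning then fixes the set.
-/

namespace Pool.Agent.Results.MP_8d8c46_lc.MixedHierarchy

open Finset

/-- `f` depends only on the membership of the vertices in `S`. -/
def DependsOn {V : Type} (S : Finset V) (f : (V → Bool) → ℝ) : Prop :=
  ∀ x y : V → Bool, (∀ v ∈ S, x v = y v) → f x = f y

/-- The number of elements of the set with indicator `x`. -/
def size {V : Type} [Fintype V] (x : V → Bool) : ℕ := (univ.filter fun v => x v = true).card

/-- The number of edges with exactly one endpoint in the set with indicator `x`, counted as pairs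
`(u, v)` with `u` inside and `v` outside. -/
def boundary {V : Type} [Fintype V] (G : SimpleGraph V) [DecidableRel G.Adj] (x : V → Bool) : ℕ :=
  (univ.filter fun e : V × V => G.Adj e.1 e.2 ∧ x e.1 = true ∧ x e.2 = false).card

/-- `L` is a solution of level `k` of the mixed hierarchy for sets of size `m`: a normalised linear
functional on the functions of a set (given by its indicator) which is nonnegative on all
nonnegative functions of at most `k + 2` vertices (Sherali-Adams), has positive semidefinite pair
moments after conditioning on at most `k` vertices (the weight `g`; basic semidefinite program),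
and gives size `m` to the set, also after conditioning on at most `k` vertices. -/
structure IsMixed {V : Type} [Fintype V] (k m : ℕ) (L : ((V → Bool) → ℝ) →ₗ[ℝ] ℝ) : Prop where
  one : L (fun _ => 1) = 1
  nonneg : ∀ S : Finset V, S.card ≤ k + 2 → ∀ f : (V → Bool) → ℝ, DependsOn S f →
    (∀ x, 0 ≤ f x) → 0 ≤ L f
  psd : ∀ S : Finset V, S.card ≤ k → ∀ g : (V → Bool) → ℝ, DependsOn S g → (∀ x, 0 ≤ g x) →
    ∀ c : V → Bool → ℝ, 0 ≤ L (fun x => g x * (∑ v, c v (x v)) ^ 2)
  size : ∀ S : Finset V, S.card ≤ k → ∀ g : (V → Bool) → ℝ, DependsOn S g →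
    L (fun x => g x * size x) = m * L g

/-- For every `d`-regular graph on `n` vertices, all `1 ≤ m ≤ n`, `0 < ε ≤ 1 / 512` and `l > 0`: if
level `k ≥ 2 ^ 14 * (n / m) * m ^ (512 ε / l)` of the mixed hierarchy has a solution for sets of
size `m` of expansion at most `ε` (expected boundary at most `ε d m`), then there is a set of `m`
vertices of expansion at most `1 - e ^ (-l) / 128`. -/
theorem result (V : Type) [Fintype V] (G : SimpleGraph V) [DecidableRel G.Adj] (d m k : ℕ)
    (ε l : ℝ) (L : ((V → Bool) → ℝ) →ₗ[ℝ] ℝ) (hd : 1 ≤ d) (hG : G.IsRegularOfDegree d)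
    (hm : 1 ≤ m) (hmn : m ≤ Fintype.card V) (hε : 0 < ε) (hε1 : ε ≤ 1 / 512) (hl : 0 < l)
    (hk : 2 ^ 14 * (Fintype.card V / m * (m : ℝ) ^ (512 * ε / l)) ≤ k)
    (hL : IsMixed k m L) (hval : L (fun x => boundary G x) ≤ ε * (d * m)) :
    ∃ x : V → Bool, size x = m ∧
      (boundary G x : ℝ) ≤ (1 - Real.exp (-l) / 128) * (d * m) := by
  classical
  have hd0 : (0 : ℝ) < d := by exact_mod_cast hd
  -- the kernel
  set K : V → V → ℝ := fun u v => if G.Adj u v then 1 / d else 0 with hK
  have hKer : Pool.Agent.TH522.SE.IsK K univ := by
    refine ⟨fun u v => ?_, fun u v => ?_, fun u v hu => absurd (mem_univ u) hu, fun u _ => ?_⟩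
    · simp only [hK]
      split_ifs
      · positivity
      · exact le_rfl
    · simp only [hK, G.adj_comm]
    · simp only [hK]
      rw [← sum_filter, sum_const, nsmul_eq_mul]
      have h1 : (univ.filter fun v => G.Adj u v).card = d := by
        rw [← hG u, ← G.card_neighborFinset_eq_degree]
        congr 1
        ext v
        simp
      rw [h1]
      field_simp
  have hSM : Pool.Agent.TH522.SE.SM k m L := by
    refine ⟨⟨hL.one, hL.nonneg, hL.psd⟩, fun S hS g hg => ?_⟩
    rw [← hL.size S hS g hg]
    congr 1
    funext x
    unfold size Pool.Agent.H647R3.UG.ind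
    rw [card_filter]
    push_cast
    rfl
  have hbd : ∀ x : V → Bool, (boundary G x : ℝ) = ∑ u, ∑ v,
      if G.Adj u v ∧ x u = true ∧ x v = false then (1 : ℝ) else 0 := by
    intro x
    unfold boundary
    rw [card_filter]
    push_cast
    rw [← univ_product_univ, sum_product]
  have herr : Pool.Agent.TH522.SE.err K L ≤ 2 * ε * m := by
    have h1 : Pool.Agent.TH522.SE.err K L = 2 / d * L (fun x => boundary G x) := by
      have h2 : (fun x : V → Bool => (boundary G x : ℝ)) = ∑ u, ∑ v,
          (fun x : V → Bool => if G.Adj u v ∧ x u = true ∧ x v = false then (1 : ℝ) else 0) := by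
        funext x
        rw [hbd x, Finset.sum_apply]
        refine sum_congr rfl fun u _ => ?_
        rw [Finset.sum_apply]
      have h3 : 2 * L (fun x => (boundary G x : ℝ)) = ∑ u, ∑ v,
          L (fun x : V → Bool => if G.Adj u v ∧ x u ≠ x v then (1 : ℝ) else 0) := by
        have h4 : ∑ u, ∑ v, L (fun x : V → Bool =>
            if G.Adj u v ∧ x u = true ∧ x v = false then (1 : ℝ) else 0) =
            ∑ u, ∑ v, L (fun x : V → Bool =>
            if G.Adj u v ∧ x v = true ∧ x u = false then (1 : ℝ) else 0) := by
          rw [sum_comm]
          refine sum_congr rfl fun u _ => sum_congr rfl fun v _ => ?_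
          simp only [G.adj_comm]
        have h5 : L (fun x => (boundary G x : ℝ)) = ∑ u, ∑ v, L (fun x : V → Bool =>
            if G.Adj u v ∧ x u = true ∧ x v = false then (1 : ℝ) else 0) := by
          rw [h2]
          simp only [map_sum]
        rw [two_mul]
        nth_rewrite 2 [h5]
        rw [h4, h5, ← sum_add_distrib]
        refine sum_congr rfl fun u _ => ?_
        rw [← sum_add_distrib]
        refine sum_congr rfl fun v _ => ?_
        rw [← map_add]
        congr 1
        funext x
        simp only [Pi.add_apply]
        by_cases ha : G.Adj u v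
        · rcases Bool.eq_false_or_eq_true (x u) with h6 | h6 <;>
            rcases Bool.eq_false_or_eq_true (x v) with h7 | h7 <;> simp [ha, h6, h7]
        · simp [ha]
      have h6 : Pool.Agent.TH522.SE.err K L = 1 / d * ∑ u, ∑ v,
          L (fun x : V → Bool => if G.Adj u v ∧ x u ≠ x v then (1 : ℝ) else 0) := by
        unfold Pool.Agent.TH522.SE.err
        rw [mul_sum]
        refine sum_congr rfl fun u _ => ?_
        rw [mul_sum]
        refine sum_congr rfl fun v _ => ?_
        simp only [hK]
        by_cases ha : G.Adj u v
        · have h7 : (fun x : V → Bool => if G.Adj u v ∧ x u ≠ x v then (1 : ℝ) else 0) =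
              (fun _ => (1 : ℝ)) - Pool.Agent.H647R3.UG.sat u v 1 := by
            funext x
            simp only [Pi.sub_apply]
            unfold Pool.Agent.H647R3.UG.sat
            simp only [Equiv.Perm.coe_one, id_eq]
            by_cases h7 : x u = x v <;> simp [ha, h7]
          rw [if_pos ha, h7, map_sub, hL.one]
        · rw [if_neg ha, zero_mul]
          have h7 : (fun x : V → Bool => if G.Adj u v ∧ x u ≠ x v then (1 : ℝ) else 0) = 0 := by
            funext x
            simp [ha]
          rw [h7, map_zero, mul_zero]
      rw [h6, ← h3]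
      ring
    rw [h1]
    calc 2 / d * L (fun x => boundary G x) ≤ 2 / d * (ε * (d * m)) :=
          mul_le_mul_of_nonneg_left hval (by positivity)
      _ = 2 * ε * m := by field_simp
  obtain ⟨S, hS1, hS2⟩ := Pool.Agent.TH522.SE.core hKer hm hmn ε l hε hε1 hl hSM hk herr
  refine ⟨fun v => decide (v ∈ S), ?_, ?_⟩
  · unfold size
    rw [← hS1]
    congr 1
    ext v
    simp
  · rw [hbd]
    have h1 : ∀ u, ∑ v, (if G.Adj u v ∧ decide (u ∈ S) = true ∧ decide (v ∈ S) = false then
        (1 : ℝ) else 0) = if u ∈ S then d * (1 - ∑ v ∈ S, K u v) else 0 := by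
      intro u
      by_cases hu : u ∈ S
      · rw [if_pos hu]
        have h2 : (1 : ℝ) - ∑ v ∈ S, K u v = ∑ v, (if v ∈ S then 0 else K u v) := by
          rw [← hKer.row u (mem_univ u)]
          rw [← sum_add_sum_compl S (fun v => K u v), add_sub_cancel_left,
            ← sum_add_sum_compl S (fun v => if v ∈ S then (0 : ℝ) else K u v)]
          have h3 : ∑ v ∈ S, (if v ∈ S then (0 : ℝ) else K u v) = 0 :=
            sum_eq_zero fun v hv => if_pos hv
          rw [h3, zero_add]
          exact sum_congr rfl fun v hv => (if_neg (mem_compl.1 hv)).symm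
        rw [h2, mul_sum]
        refine sum_congr rfl fun v _ => ?_
        simp only [hK]
        by_cases hv : v ∈ S
        · simp [hv]
        · by_cases ha : G.Adj u v
          · simp only [hu, hv, ha, decide_true, decide_false, and_self, if_true, if_false]
            field_simp
          · simp [ha]
      · rw [if_neg hu]
        exact sum_eq_zero fun v _ => by simp [hu]
    rw [sum_congr rfl fun u _ => h1 u, ← sum_filter]
    have h4 : univ.filter (fun u => u ∈ S) = S := by ext; simp
    rw [h4, ← mul_sum, sum_sub_distrib, sum_const, nsmul_eq_mul, mul_one, hS1]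
    have h5 : ∑ u ∈ S, ∑ v ∈ S, K u v = Pool.Agent.TH522.SE.bet K S S := rfl
    rw [h5]
    nlinarith

end Pool.Agent.Results.MP_8d8c46_lc.MixedHierarchy
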