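import Pool.Agent.TH837.SX.Core

/-!
# Small-set expansion for pure dynamic programs: the threshold `δ`

A (max,+) program (a pure dynamic program, a tropical circuit) computes functions of its inputs, one
after the other; each is an input, a real constant, or the maximum or the sum of two functions
computed before. Here the inputs are weights of the `N = (n q)^2` possible edges of a bipartite
graph with `n q` vertices on each side, and the values of the program never exceed the largest total
weight inside a set of at most `2 n` vertices, a fraction `δ = 1 / q` of all vertices (for all
nonnegative weights).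

In a `d`-regular graph every such set has at most `d n` edges inside, and exactly `d n` if and only
if it has `2 n` vertices and expansion zero. There is a program with `2 N + q ^ 2 + 1` instructions
with the value at least `δ d n` for every `d`-regular graph. But to have a value of at least
`(δ + ε) d n` for the regular graphs in which some set of `2 n` vertices has expansion zero, programs
with `2 ^ (γ n) - 1` instructions are necessary, where `γ > 0` depends on `q` and `ε` only. So for
pure dynamic programs these graphs cannot be distinguished from graphs all of whose sets of measure
`δ` have expansion at least `1 - δ - ε`. The lower bound holds for randomised programs too, even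
with success probability `2 ^ (- γ n)`. Trying all sets is a program with `2 ^ (O (q n))`
instructions.

Proof. For shifts `x`, `y` of the labels of the left and of the right vertices consider the
`n`-regular graph in which `(i, a)` and `(j, b)` are adjacent if `a - x i = b - y j`. It has `q`
components with `2 n` vertices each. The general bound for systems of pairs (`MX.lower`, which was
used for Label Cover in the result `MP_62e2f2_lc.PureDPThreshold`) is applied: the monomials of a
program are sets of edges inside a set of `2 n` vertices, and for a fixed set with `n ^ 2` pairs only
a fraction `1 / q` of them is in a random graph of this form. An exponential moment, for each class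
of graphs whose monomials have the same skeleton, shows that all classes are small.
-/

set_option autoImplicit false

namespace Pool.Agent.Results.MP_8d8c46_lc.PureDPThreshold

open Pool.Agent.TH837.MX Pool.Agent.TH837.SX

theorem result (q : ℕ) (hq : 1 ≤ q) :
    (∀ n : ℕ, ∃ f : (Ed n q → ℝ) → ℝ, Computes f (2 * Fintype.card (Ed n q) + q ^ 2 + 1) ∧
      (∀ w : Ed n q → ℝ, (∀ e, 0 ≤ w e) →
        ∃ A B : Finset (Vx n q), A.card + B.card ≤ 2 * n ∧ f w ≤ ∑ e ∈ A ×ˢ B, w e) ∧
      ∀ (d : ℕ) (G : Finset (Ed n q)), Regular d G →
        1 / q * (d * n) ≤ f (fun e => if e ∈ G then 1 else 0)) ∧
    (∀ ε : ℝ, 0 < ε → 1 / q + ε ≤ 1 → ∃ γ : ℝ, 0 < γ ∧ ∀ (n : ℕ) (R : Type) [Fintype R]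
      [Nonempty R] (f : R → (Ed n q → ℝ) → ℝ), Approx (1 / q + ε) (2 ^ (-(γ * n))) f →
      ∀ s : ℕ, (∀ r, Computes (f r) s) → (2 : ℝ) ^ (γ * n) ≤ s + 1) := by
  refine ⟨fun n => ⟨prog n q, prog_computes n q, fun w _ => prog_sound w,
    fun d G hG => prog_regular hq (card_regular hG)⟩, fun ε hε hε1 => ⟨gm q ε, gm_pos hq hε,
    fun _ _ _ _ _ hf _ hs => sx_lower hq hε ?_ hf hs⟩⟩
  have : (0 : ℝ) ≤ 1 / q := by positivity
  linarith

end Pool.Agent.Results.MP_8d8c46_lc.PureDPThreshold
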