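import Pool.Agent.H562R2.CayleyIso

/-!
# Small-set expansion in Cayley graphs over `F_q^n`: the extremal sets are subspaces

Let `V` be a vector space of dimension `n` over the field with `q` elements, and let `μ` be a
nonnegative weight on `V` which is invariant under the nonzero scalars (for `q = 2` every weight
is). In the Cayley graph of `V` with the weights `μ` the expansion of a nonempty set `A` of vertices
is `Φ(A) = ∑ s, μ s * #{x ∈ A | x + s ∉ A} / |A|`.

For every `λ ≥ 0` the minimum of `Φ(A) - λ * log_q (|V| / |A|)` over all nonempty sets `A` of
vertices is attained at a linear subspace. In other words: the expansion profile of the graph (all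
pairs of `log_q (|V| / |A|)` and `Φ(A)`) and the profile of the linear subspaces (all pairs of a
codimension and an expansion) have the same supporting lines of nonnegative slope. In particular
the best constant `c` in the isoperimetric inequality `Φ(A) ≥ c * log_q (|V| / |A|)` is the least
ratio of the expansion and the codimension of a proper subspace (second part of the theorem). For
the standard basis of `F_2^n` this constant is `1` and the inequality is the theorem of Harper.

This is the unused theorem `Pool.Agent.H562R2.CayleyIso.main` of the starting files, with the
identification of its left side with the value at the subspace. (`CayleyTest` in this folder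
compares a set of density at most `q ^ (-k)` with subspaces of codimension exactly `k`.)
-/

set_option autoImplicit false

namespace Pool.Agent.Results.MP_8d8c46_lc.SubspaceProfile

open Finset Module
open scoped Classical

noncomputable section

variable {V : Type} [AddCommGroup V] [Fintype V]

/-- The expansion of the set `A` in the Cayley graph of `V` with the weights `μ`. -/
def expansion (μ : V → ℝ) (A : Finset V) : ℝ :=
  (∑ s, μ s * ((A.filter fun x => x + s ∉ A).card : ℝ)) / A.card

/-- The vertex set of a linear subspace. -/
def carrier {F : Type} [Field F] [Module F V] (W : Submodule F V) : Finset V :=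
  univ.filter fun x => x ∈ W

theorem carrier_nonempty {F : Type} [Field F] [Module F V] (W : Submodule F V) :
    (carrier W).Nonempty := ⟨0, by simp [carrier]⟩

theorem card_carrier {F : Type} [Field F] [Fintype F] [Module F V] (W : Submodule F V) :
    (carrier W).card = Fintype.card F ^ finrank F W := by
  rw [← Module.card_eq_pow_finrank (K := F) (V := W)]
  unfold carrier
  rw [Fintype.card_subtype]

theorem out_subspace {F : Type} [Field F] [Module F V] (W : Submodule F V) (s : V) :
    ((carrier W).filter fun x => x + s ∉ carrier W).card =
      if s ∈ W then 0 else (carrier W).card := by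
  split_ifs with h
  · rw [Finset.card_eq_zero, Finset.filter_eq_empty_iff]
    intro x hx
    simp only [carrier, Finset.mem_filter, Finset.mem_univ, true_and, not_not] at hx ⊢
    exact W.add_mem hx h
  · congr 1
    rw [Finset.filter_eq_self]
    intro x hx
    simp only [carrier, Finset.mem_filter, Finset.mem_univ, true_and] at hx ⊢
    intro hc
    apply h
    have := W.sub_mem hc hx
    simpa using this

theorem expansion_carrier {F : Type} [Field F] [Module F V] (μ : V → ℝ) (W : Submodule F V) :
    expansion μ (carrier W) = ∑ s ∈ univ.filter (fun s => s ∉ W), μ s := by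
  have hc : ((carrier W).card : ℝ) ≠ 0 := by
    exact_mod_cast (carrier_nonempty W).card_pos.ne'
  unfold expansion
  rw [div_eq_iff hc, Finset.sum_mul, Finset.sum_filter]
  refine Finset.sum_congr rfl fun s _ => ?_
  rw [out_subspace]
  by_cases h : s ∈ W <;> simp [h]

theorem logb_carrier {F : Type} [Field F] [Fintype F] [Module F V] (W : Submodule F V) :
    Real.logb (Fintype.card F) (Fintype.card V / (carrier W).card) =
      (finrank F V : ℝ) - finrank F W := by
  have hq : (1 : ℝ) < Fintype.card F := by exact_mod_cast Fintype.one_lt_card (α := F)
  have hq0 : (0 : ℝ) < Fintype.card F := by linarith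
  rw [card_carrier, Module.card_eq_pow_finrank (K := F) (V := V)]
  push_cast
  rw [Real.logb_div (by positivity) (by positivity), Real.logb_pow, Real.logb_pow,
    Real.logb_self_eq_one hq]
  ring

theorem result {F : Type} [Field F] [Fintype F] [Module F V] (μ : V → ℝ) (hμ : ∀ s, 0 ≤ μ s)
    (hinv : ∀ (c : F) (s : V), c ≠ 0 → μ (c • s) = μ s) :
    (∀ lam : ℝ, 0 ≤ lam → ∃ W : Submodule F V, ∀ A : Finset V, A.Nonempty →
      expansion μ (carrier W) -
          lam * Real.logb (Fintype.card F) (Fintype.card V / (carrier W).card) ≤
        expansion μ A - lam * Real.logb (Fintype.card F) (Fintype.card V / A.card)) ∧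
    ∀ c : ℝ, 0 ≤ c → ((∀ A : Finset V, A.Nonempty →
        c * Real.logb (Fintype.card F) (Fintype.card V / A.card) ≤ expansion μ A) ↔
      ∀ W : Submodule F V, c * ((finrank F V : ℝ) - finrank F W) ≤ expansion μ (carrier W)) := by
  have h1 : ∀ lam : ℝ, 0 ≤ lam → ∃ W : Submodule F V, ∀ A : Finset V, A.Nonempty →
      expansion μ (carrier W) -
          lam * Real.logb (Fintype.card F) (Fintype.card V / (carrier W).card) ≤
        expansion μ A - lam * Real.logb (Fintype.card F) (Fintype.card V / A.card) := by
    intro lam hlam
    obtain ⟨W, hW⟩ := Pool.Agent.H562R2.CayleyIso.main (F := F) μ hμ hinv lam hlam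
    refine ⟨W, fun A hA => ?_⟩
    rw [expansion_carrier, logb_carrier]
    exact hW A hA
  refine ⟨h1, fun c hc => ⟨fun h W => ?_, fun h A hA => ?_⟩⟩
  · have h2 := h (carrier W) (carrier_nonempty W)
    rwa [logb_carrier] at h2
  · obtain ⟨W, hW⟩ := h1 c hc
    have h2 := hW A hA
    rw [logb_carrier] at h2
    have h3 := h W
    linarith

end

end Pool.Agent.Results.MP_8d8c46_lc.SubspaceProfile
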